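import Pool.Agent.X13.AG.Golomb

/-!
# MP_ac9862_nt, Q1: the thresholds `j_k` and Golomb's sequence

`AlmostGolomb r a`: `a 1, a 2, ...` is the lexicographically least nondecreasing sequence of
positive integers with `a (a n + ... + a (n-r+1)) = n` for all `n ≥ 1` (terms of index `≤ 0` are
`0`).  `mult a n` is the number of `i ≥ 1` with `a i = n`, and `maxMult a` is the supremum of
`mult a n`, `n ≥ 1`.  `IsGolomb G`: `G 1, G 2, ...` is nondecreasing, positive, and every `n ≥ 1`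
occurs exactly `G n` times.
-/

namespace Pool.Agent.Results.MP_ac9862_nt.Thresholds

open Pool.Agent.X13.AG

theorem result :
    (∀ r, 2 ≤ r → ∃! a : ℕ → ℕ, AlmostGolomb r a) ∧
    ∀ a : ℕ → ℕ → ℕ, (∀ r, 2 ≤ r → AlmostGolomb r (a r)) →
      (∀ r, 2 ≤ r → BddAbove {t : ℕ | ∃ n, 1 ≤ n ∧ t = mult (a r) n}) ∧
      ∀ G : ℕ → ℕ, IsGolomb G →
        (∀ r, 3 ≤ r → a r r = G (r - 1)) ∧
        (∀ r, 5 ≤ r → maxMult (a r) = mult (a r) (r - 1)) ∧
        ∃ j : ℕ → ℕ,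
          (∀ k, 4 ≤ k → IsLeast {r : ℕ | 2 ≤ r ∧ k ≤ maxMult (a r)} (j k)) ∧
          (∀ k, 4 ≤ k → j k = (∑ n ∈ Finset.Icc 1 (k - 1), G n) + 2) ∧
          (∀ k, 4 ≤ k → (G k : ℤ) = (j (k + 1) : ℤ) - (j k : ℤ)) := by
  refine ⟨existsUnique_almostGolomb, ?_⟩
  intro a ha
  have hgr : ∀ r, 2 ≤ r → Greedy (a r) r := fun r hr => (ha r hr).greedy hr
  refine ⟨fun r hr => (hgr r hr).bdd hr, ?_⟩
  intro G hG
  refine ⟨?_, ?_, fun k => A G (k - 1) + 2, ?_, ?_, ?_⟩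
  · intro r hr
    exact hG.shift (hgr r (by omega)) hr r hr (by omega)
  · intro r hr
    rw [(hgr r (by omega)).maxMult_eq hr, (hgr r (by omega)).mult_pred (by omega)]
  · intro k hk
    exact isLeast_threshold hG a hgr k hk
  · intro k _
    show A G (k - 1) + 2 = _
    rw [A_eq_Icc]
  · intro k hk
    show (G k : ℤ) = ((A G (k + 1 - 1) + 2 : ℕ) : ℤ) - ((A G (k - 1) + 2 : ℕ) : ℤ)
    have e : k + 1 - 1 = (k - 1) + 1 := by omega
    rw [e, A_succ]
    have e2 : k - 1 + 1 = k := by omega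
    rw [e2]
    push_cast
    ring

end Pool.Agent.Results.MP_ac9862_nt.Thresholds
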